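import Pool.Agent.P.MP_da739a_co.DensC

namespace Pool.Agent.Results.MP_da739a_co.Critical

theorem result :
    ∀ (k : ℕ), 1 ≤ k → ∀ (V : Type) [Fintype V] (G : SimpleGraph V),
      IsEmpty (G →g SimpleGraph.cycleGraph (2 * k + 1)) →
      (∀ v : V, Nonempty (G.induce {v}ᶜ →g SimpleGraph.cycleGraph (2 * k + 1))) →
      (2 * k + 1) * Fintype.card V ≤ 2 * k * G.edgeSet.ncard + 2 * k :=
  fun k hk V _ G h0 h => Pool.Agent.P.MP_da739a_co.Dens.crit_main k hk V G h0 h

end Pool.Agent.Results.MP_da739a_co.Critical
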