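import Pool.Agent.P.MP_da739a_co.Main

namespace Pool.Agent.Results.MP_da739a_co.OddGirth

theorem result :
    ∀ (k : ℕ), 1 ≤ k → ∀ (V : Type) [Fintype V] (G : SimpleGraph V),
      (∃ (f : V → ℝ × ℝ) (γ : V → V → ℝ → ℝ × ℝ),
        Function.Injective f ∧
        (∀ u v, G.Adj u v →
          ContinuousOn (γ u v) (Set.Icc 0 1) ∧ Set.InjOn (γ u v) (Set.Icc 0 1) ∧
          γ u v 0 = f u ∧ γ u v 1 = f v ∧
          ∀ t ∈ Set.Ioo (0:ℝ) 1, ∀ w, γ u v t ≠ f w) ∧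
        (∀ u v u' v', G.Adj u v → G.Adj u' v' → s(u, v) ≠ s(u', v') →
          ∀ t ∈ Set.Ioo (0:ℝ) 1, ∀ t' ∈ Set.Ioo (0:ℝ) 1, γ u v t ≠ γ u' v' t')) →
      (∀ (v : V) (c : G.Walk v v), c.IsCycle → Odd c.length → 4 * k + 3 ≤ c.length) →
      Nonempty (G →g SimpleGraph.cycleGraph (2 * k + 1)) :=
  fun k hk V _ G hpl hodd => Pool.Agent.P.MP_da739a_co.main k hk V G hpl hodd

end Pool.Agent.Results.MP_da739a_co.OddGirth
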